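import Mathlib

/-!
# Hyperplane sections of a Gilbert graph belonging to the least eigenvalue that are not isomorphic

For `q = 2`, `n = 8`, `d = 5` the least eigenvalue of the Gilbert graph `G₀` is `-6`; it is given by
the vectors `v` of weight `2` and by those of weight `3`. In the section for a vector of weight `2`
there are two adjacent vertices with exactly `42` common neighbours; in the section for a vector of
weight `3` there are none.
-/

namespace Pool.Agent.Results.MP_be01c1_co.NotIsomorphic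

/-- Vectors over the integers modulo `q`. -/
abbrev Vec (q n : ℕ) : Type := Fin n → ZMod q

/-- The pairing `⟨u, v⟩`. -/
def ip {q n : ℕ} (u v : Vec q n) : ZMod q := ∑ i, u i * v i

/-- The subgraph `G[V]` of the Gilbert graph induced on the set `V`: the vertices `u` and `u'` are
adjacent if and only if their Hamming distance (the Hamming weight of `u - u'`) is at least `1` and
at most `d - 1`. -/
def gilbert {q n : ℕ} (d : ℕ) (V : Set (Vec q n)) : SimpleGraph V where
  Adj u u' := 1 ≤ hammingDist u.1 u'.1 ∧ hammingDist u.1 u'.1 ≤ d - 1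
  symm := ⟨fun u u' h => by rwa [hammingDist_comm]⟩
  loopless := ⟨fun u h => by simp at h⟩

open scoped Classical in
/-- The eigenvalue `λ_V(v) = ∑ z ^ ⟨u, v⟩` of `G[V]`, the sum being over the `u` in `V` of Hamming
weight at least `1` and at most `d - 1`, and `z = exp (2 π i / q)`. -/
noncomputable def lam {q n : ℕ} [NeZero q] (d : ℕ) (V : Set (Vec q n)) (v : Vec q n) : ℂ :=
  ∑ u : Vec q n, if u ∈ V ∧ 1 ≤ hammingNorm u ∧ hammingNorm u ≤ d - 1 then
    Complex.exp (2 * Real.pi * Complex.I / q) ^ (ip u v).val else 0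

/-- The vector `v` gives the least eigenvalue of `G[V]`. -/
def IsMinimal {q n : ℕ} [NeZero q] (d : ℕ) (V : Set (Vec q n)) (v : Vec q n) : Prop :=
  ∀ w, (lam d V v).re ≤ (lam d V w).re

/-- The integer by which the vectors are ordered. -/
def code {q n : ℕ} (v : Vec q n) : ℕ := ∑ i : Fin n, (v i).val * q ^ (n - 1 - (i : ℕ))

/-- The vector `v` is the first one which gives the least eigenvalue of `G[V]`. -/
def IsFirst {q n : ℕ} [NeZero q] (d : ℕ) (V : Set (Vec q n)) (v : Vec q n) : Prop :=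
  IsMinimal d V v ∧ ∀ w, IsMinimal d V w → code v ≤ code w

/-- The sets `V₀, V₁, …`: the set `V₀` consists of all vectors, and `V_{t+1}` of those in `V_t`
that are orthogonal to the first vector giving the least eigenvalue of `G[V_t]`. -/
def space (q n d : ℕ) [NeZero q] : ℕ → Set (Vec q n)
  | 0 => Set.univ
  | t + 1 => {u | u ∈ space q n d t ∧ ∀ v, IsFirst d (space q n d t) v → ip u v = 0}

/-- The set `H_t(v)`. -/
def section' (q n d : ℕ) [NeZero q] (t : ℕ) (v : Vec q n) : Set (Vec q n) :=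
  {u | u ∈ space q n d t ∧ ip u v = 0}

/-! ### Computations with numbers below 256 -/

/-- The binary digits. -/
def bit (m i : ℕ) : ℕ := m / 2 ^ i % 2

/-- The number of digits one. -/
def wt (m : ℕ) : ℕ := bit m 0 + bit m 1 + bit m 2 + bit m 3 + bit m 4 + bit m 5 + bit m 6 + bit m 7

/-- The number of different digits. -/
def dist (m k : ℕ) : ℕ :=
  (bit m 0 + bit k 0) % 2 + (bit m 1 + bit k 1) % 2 + (bit m 2 + bit k 2) % 2 +
  (bit m 3 + bit k 3) % 2 + (bit m 4 + bit k 4) % 2 + (bit m 5 + bit k 5) % 2 +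
  (bit m 6 + bit k 6) % 2 + (bit m 7 + bit k 7) % 2

/-- The pairing. -/
def pair (m k : ℕ) : ℕ := (bit m 0 * bit k 0 + bit m 1 * bit k 1 + bit m 2 * bit k 2 +
  bit m 3 * bit k 3 + bit m 4 * bit k 4 + bit m 5 * bit k 5 + bit m 6 * bit k 6 +
  bit m 7 * bit k 7) % 2

/-- Counting the numbers below `n` with a property. -/
def cnt (p : ℕ → Bool) : ℕ → ℕ
  | 0 => 0
  | n + 1 => cnt p n + (p n).toNat

theorem cnt_eq (p : ℕ → Bool) (n : ℕ) :
    cnt p n = (Finset.univ.filter fun m : Fin n => p m = true).card := by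
  induction n with
  | zero => simp [cnt]
  | succ n ih =>
    rw [cnt, ih, Finset.card_filter, Finset.card_filter, Fin.sum_univ_castSucc]
    congr 1
    cases h : p n <;> simp [h]

/-- The vector with given binary digits. -/
def E (m : Fin 256) : Vec 2 8 := fun i => (bit m i : ZMod 2)

theorem bit_lt (m i : ℕ) : bit m i < 2 := Nat.mod_lt _ (by norm_num)

theorem cast_inj {a b : ℕ} (ha : a < 2) (hb : b < 2) (h : (a : ZMod 2) = b) : a = b := by
  have := congrArg ZMod.val h
  rwa [ZMod.val_natCast, ZMod.val_natCast, Nat.mod_eq_of_lt ha, Nat.mod_eq_of_lt hb] at this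

theorem E_injective : Function.Injective E := by
  intro m k h
  have hb : ∀ i : Fin 8, bit m i = bit k i := fun i =>
    cast_inj (bit_lt _ _) (bit_lt _ _) (congrFun h i)
  have h0 := hb 0
  have h1 := hb 1
  have h2 := hb 2
  have h3 := hb 3
  have h4 := hb 4
  have h5 := hb 5
  have h6 := hb 6
  have h7 := hb 7
  simp only [bit] at h0 h1 h2 h3 h4 h5 h6 h7
  norm_num at h0 h1 h2 h3 h4 h5 h6 h7
  have hm := m.isLt
  have hk := k.isLt
  ext
  omega

theorem E_bijective : Function.Bijective E := by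
  rw [Fintype.bijective_iff_injective_and_card]
  exact ⟨E_injective, by simp [ZMod.card]⟩

theorem norm_E (m : Fin 256) : hammingNorm (E m) = wt m := by
  have h : ∀ i : Fin 8, (if E m i ≠ 0 then 1 else 0) = bit m i := by
    intro i
    have := bit_lt m i
    unfold E
    rcases Nat.lt_succ_iff_lt_or_eq.1 this with h | h
    · have : bit m i = 0 := by omega
      simp [this]
    · simp [h]
  rw [hammingNorm, Finset.card_filter]
  simp only [h, Fin.sum_univ_eight]
  rfl

theorem dist_E (m k : Fin 256) : hammingDist (E m) (E k) = dist m k := by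
  have h : ∀ i : Fin 8, (if E m i ≠ E k i then 1 else 0) = (bit m i + bit k i) % 2 := by
    intro i
    have h1 := bit_lt m i
    have h2 := bit_lt k i
    unfold E
    split_ifs with h3
    · have : bit m i ≠ bit k i := fun h => h3 (by rw [h])
      omega
    · push Not at h3
      have := cast_inj h1 h2 h3
      omega
  rw [hammingDist, Finset.card_filter]
  simp only [h, Fin.sum_univ_eight]
  rfl

theorem ip_E (m k : Fin 256) : (ip (E m) (E k)).val = pair m k := by
  have : ip (E m) (E k) = ((bit m 0 * bit k 0 + bit m 1 * bit k 1 + bit m 2 * bit k 2 +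
      bit m 3 * bit k 3 + bit m 4 * bit k 4 + bit m 5 * bit k 5 + bit m 6 * bit k 6 +
      bit m 7 * bit k 7 : ℕ) : ZMod 2) := by
    rw [ip, Fin.sum_univ_eight]
    push_cast
    rfl
  rw [this, ZMod.val_natCast]
  rfl

/-- The weights in the connection set. -/
def inS (w : ℕ) : Bool := decide (1 ≤ w) && decide (w ≤ 4)

/-- The number of elements of the connection set not orthogonal to `m`. -/
def neg (m : ℕ) : ℕ := cnt (fun k => inS (wt k) && decide (pair k m = 1)) 256

/-- The number of common neighbours of `0` and `s` in the section for `m`. -/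
def common (m s : ℕ) : ℕ :=
  cnt (fun k => decide (pair k m = 0) && (inS (wt k) && inS (dist k s))) 256

theorem neg_le : ∀ m : Fin 256, neg m ≤ 84 := by
  decide +kernel

theorem neg_three : neg 3 = 84 := by
  decide +kernel

theorem neg_seven : neg 7 = 84 := by
  decide +kernel

theorem size : cnt (fun k => inS (wt k)) 256 = 162 := by
  decide +kernel

theorem common_three : ∃ s : Fin 256, pair s 3 = 0 ∧ inS (wt s) = true ∧ common 3 s = 42 := by
  decide +kernel

theorem common_seven : ∀ s : Fin 256, pair s 7 = 0 → inS (wt s) = true → common 7 s ≠ 42 := by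
  decide +kernel

theorem inS_iff (w : ℕ) : inS w = true ↔ 1 ≤ w ∧ w ≤ 5 - 1 := by
  simp [inS]

theorem ip_eq_zero (m k : Fin 256) : ip (E m) (E k) = 0 ↔ pair m k = 0 := by
  rw [← ip_E, ZMod.val_eq_zero]

theorem exp_eq : Complex.exp (2 * Real.pi * Complex.I / ((2 : ℕ) : ℂ)) = -1 := by
  rw [show (2 * (Real.pi : ℂ) * Complex.I / ((2 : ℕ) : ℂ)) = Real.pi * Complex.I by
    push_cast
    ring]
  exact Complex.exp_pi_mul_I

theorem lam_E (m : Fin 256) : lam 5 Set.univ (E m) = 162 - 2 * (neg m : ℂ) := by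
  rw [lam, ← (Equiv.ofBijective E E_bijective).sum_comp]
  calc _ = ∑ k : Fin 256, ((if inS (wt k) = true then (1 : ℂ) else 0) -
        2 * (if (inS (wt k) && decide (pair k m = 1)) = true then (1 : ℂ) else 0)) := by
        refine Finset.sum_congr rfl fun k _ => ?_
        rw [Equiv.ofBijective_apply, norm_E, ip_E, exp_eq]
        by_cases hk : inS (wt k) = true
        · have hk' := (inS_iff _).1 hk
          rw [if_pos ⟨Set.mem_univ _, hk'⟩, hk]
          have : pair k m < 2 := Nat.mod_lt _ (by norm_num)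
          rcases Nat.lt_succ_iff_lt_or_eq.1 this with h | h
          · have h0 : pair k m = 0 := by omega
            simp [h0]
          · rw [h]
            norm_num
        · have hk' : ¬ (1 ≤ wt k ∧ wt k ≤ 5 - 1) := fun h => hk ((inS_iff _).2 h)
          rw [if_neg (fun h => hk' h.2)]
          simp [hk]
    _ = 162 - 2 * (neg m : ℂ) := by
        have h162 : ((Finset.univ.filter fun k : Fin 256 => inS (wt k) = true).card : ℂ) = 162 := by
          have := size
          rw [cnt_eq] at this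
          exact_mod_cast this
        rw [Finset.sum_sub_distrib, ← Finset.mul_sum, Finset.sum_boole, Finset.sum_boole, h162,
          neg, cnt_eq]

theorem minimal {m : Fin 256} (hm : neg m = 84) : IsMinimal 5 (Set.univ : Set (Vec 2 8)) (E m) := by
  intro w
  obtain ⟨k, rfl⟩ := E_bijective.surjective w
  have := neg_le k
  rw [lam_E, lam_E, hm]
  have h : ((neg k : ℕ) : ℝ) ≤ 84 := by exact_mod_cast this
  simp
  linarith

/-- The number of common neighbours. -/
noncomputable def comm (V : Set (Vec 2 8)) (a b : V) : ℕ :=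
  Nat.card {w : V // (gilbert 5 V).Adj a w ∧ (gilbert 5 V).Adj b w}

theorem comm_iso {V V' : Set (Vec 2 8)} (f : gilbert 5 V ≃g gilbert 5 V') (a b : V) :
    comm V a b = comm V' (f a) (f b) := by
  refine Nat.card_congr (f.toEquiv.subtypeEquiv fun w => ?_)
  exact and_congr (f.map_adj_iff).symm (f.map_adj_iff).symm

/-- The hyperplane orthogonal to `v`. -/
def hyp (v : Vec 2 8) : Set (Vec 2 8) := {u | u ∈ (Set.univ : Set (Vec 2 8)) ∧ ip u v = 0}

theorem ip_sub {u w v : Vec 2 8} (hu : u ∈ hyp v) (hw : w ∈ hyp v) : u - w ∈ hyp v := by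
  refine ⟨Set.mem_univ _, ?_⟩
  have h1 : ip u v = 0 := hu.2
  have h2 : ip w v = 0 := hw.2
  have : ip (u - w) v = ip u v - ip w v := by
    simp only [ip, Pi.sub_apply, sub_mul, Finset.sum_sub_distrib]
  rw [this, h1, h2, sub_zero]

theorem ip_add {u w v : Vec 2 8} (hu : u ∈ hyp v) (hw : w ∈ hyp v) : u + w ∈ hyp v := by
  refine ⟨Set.mem_univ _, ?_⟩
  have h1 : ip u v = 0 := hu.2
  have h2 : ip w v = 0 := hw.2
  have : ip (u + w) v = ip u v + ip w v := by
    simp only [ip, Pi.add_apply, add_mul, Finset.sum_add_distrib]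
  rw [this, h1, h2, add_zero]

theorem zero_mem (v : Vec 2 8) : (0 : Vec 2 8) ∈ hyp v := by
  refine ⟨Set.mem_univ _, ?_⟩
  simp [ip]

theorem comm_translate {v : Vec 2 8} (a b : hyp v) :
    comm (hyp v) a b = comm (hyp v) ⟨0, zero_mem v⟩ ⟨b.1 - a.1, ip_sub b.2 a.2⟩ := by
  let e : hyp v ≃ hyp v :=
    { toFun := fun w => ⟨w.1 - a.1, ip_sub w.2 a.2⟩
      invFun := fun w => ⟨w.1 + a.1, ip_add w.2 a.2⟩
      left_inv := fun w => by simp
      right_inv := fun w => by simp }
  refine Nat.card_congr (e.subtypeEquiv fun w => ?_)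
  simp only [gilbert, hammingDist_eq_hammingNorm, e, Equiv.coe_fn_mk]
  rw [show -(0 : Vec 2 8) + (w.1 - a.1) = -a.1 + w.1 by abel,
    show -(b.1 - a.1) + (w.1 - a.1) = -b.1 + w.1 by abel]

theorem comm_eq (m s : Fin 256) (hs : E s ∈ hyp (E m)) :
    comm (hyp (E m)) ⟨0, zero_mem _⟩ ⟨E s, hs⟩ = common m s := by
  have hE0 : E 0 = 0 := by
    funext i
    simp [E, bit]
  rw [common, cnt_eq, ← Fintype.card_subtype, ← Nat.card_eq_fintype_card, comm]
  symm
  have hp : ∀ k : Fin 256, (decide (pair k m = 0) && (inS (wt k) && inS (dist k s))) = true ↔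
      pair k m = 0 ∧ (1 ≤ wt k ∧ wt k ≤ 5 - 1) ∧ (1 ≤ dist k s ∧ dist k s ≤ 5 - 1) := by
    intro k
    rw [Bool.and_eq_true, Bool.and_eq_true, inS_iff, inS_iff, decide_eq_true_iff]
  refine Nat.card_eq_of_bijective (fun k => ⟨⟨E k.1, Set.mem_univ _,
    (ip_eq_zero _ _).2 ((hp k.1).1 k.2).1⟩, ?_, ?_⟩) ⟨?_, ?_⟩
  · have := ((hp k.1).1 k.2).2.1
    show 1 ≤ hammingDist (0 : Vec 2 8) (E k.1) ∧ hammingDist (0 : Vec 2 8) (E k.1) ≤ 5 - 1
    rwa [hammingDist_zero_left, norm_E]
  · have := ((hp k.1).1 k.2).2.2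
    show 1 ≤ hammingDist (E s) (E k.1) ∧ hammingDist (E s) (E k.1) ≤ 5 - 1
    rwa [hammingDist_comm, dist_E]
  · rintro ⟨k, hk⟩ ⟨k', hk'⟩ h
    have h' := congrArg (fun x => x.1.1) h
    exact Subtype.ext (E_injective h')
  · rintro ⟨⟨w, hw1, hw2⟩, hw3, hw4⟩
    obtain ⟨k, rfl⟩ := E_bijective.surjective w
    refine ⟨⟨k, (hp k).2 ⟨(ip_eq_zero _ _).1 hw2, ?_, ?_⟩⟩, rfl⟩
    · have h : 1 ≤ hammingDist (0 : Vec 2 8) (E k) ∧ hammingDist (0 : Vec 2 8) (E k) ≤ 5 - 1 := hw3
      rwa [hammingDist_zero_left, norm_E] at h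
    · have h : 1 ≤ hammingDist (E s) (E k) ∧ hammingDist (E s) (E k) ≤ 5 - 1 := hw4
      rwa [hammingDist_comm, dist_E] at h

theorem not_iso : IsEmpty (gilbert 5 (hyp (E 3)) ≃g gilbert 5 (hyp (E 7))) := by
  refine ⟨fun f => ?_⟩
  obtain ⟨s, hs1, hs2, hs3⟩ := common_three
  have e3 : ((3 : Fin 256) : ℕ) = 3 := rfl
  have e7 : ((7 : Fin 256) : ℕ) = 7 := rfl
  have hs : E s ∈ hyp (E 3) := ⟨Set.mem_univ _, (ip_eq_zero _ _).2 (by rw [e3]; exact hs1)⟩
  have h1 := comm_eq 3 s hs
  rw [e3, hs3] at h1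
  have hadj : (gilbert 5 (hyp (E 3))).Adj ⟨0, zero_mem _⟩ ⟨E s, hs⟩ := by
    show 1 ≤ hammingDist (0 : Vec 2 8) (E s) ∧ hammingDist (0 : Vec 2 8) (E s) ≤ 5 - 1
    rw [hammingDist_zero_left, norm_E]
    exact (inS_iff _).1 hs2
  have hadj' := f.map_adj_iff.2 hadj
  rw [comm_iso f, comm_translate] at h1
  generalize f ⟨E s, hs⟩ = a at h1 hadj'
  generalize f ⟨0, zero_mem _⟩ = b at h1 hadj'
  obtain ⟨k, hk⟩ := E_bijective.surjective (a.1 - b.1)
  have hkm : E k ∈ hyp (E 7) := by
    rw [hk]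
    exact ip_sub a.2 b.2
  have h2 : comm (hyp (E 7)) ⟨0, zero_mem _⟩ ⟨E k, hkm⟩ = 42 := by
    rw [← h1]
    congr 2
  rw [comm_eq, e7] at h2
  have h3 := (ip_eq_zero _ _).1 hkm.2
  rw [e7] at h3
  refine common_seven k h3 ?_ h2
  rw [inS_iff, ← norm_E, hk, show a.1 - b.1 = -b.1 + a.1 by abel, ← hammingDist_eq_hammingNorm]
  exact hadj'

/-- **The sections belonging to the least eigenvalue need not be isomorphic.** There are a prime
`q`, `n ≥ 1`, `d ≥ 2` and `t` such that `G_t = G[V_t]` has an edge, and two vectors `v`, `v'` which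
both give the least eigenvalue of `G_t` such that `G[H_t(v)]` and `G[H_t(v')]` are not isomorphic. -/
theorem result : ∃ (q n d t : ℕ) (_ : Fact q.Prime), 1 ≤ n ∧ 2 ≤ d ∧
    (∃ u u', (gilbert d (space q n d t)).Adj u u') ∧
    ∃ v v' : Vec q n, IsMinimal d (space q n d t) v ∧ IsMinimal d (space q n d t) v' ∧
      IsEmpty (gilbert d (section' q n d t v) ≃g gilbert d (section' q n d t v')) := by
  refine ⟨2, 8, 5, 0, ⟨Nat.prime_two⟩, by norm_num, by norm_num, ?_, E 3, E 7, minimal neg_three,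
    minimal neg_seven, not_iso⟩
  refine ⟨⟨E 0, Set.mem_univ _⟩, ⟨E 1, Set.mem_univ _⟩, ?_⟩
  show 1 ≤ hammingDist (E 0) (E 1) ∧ hammingDist (E 0) (E 1) ≤ 5 - 1
  rw [dist_E]
  decide

end Pool.Agent.Results.MP_be01c1_co.NotIsomorphic
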